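import Mathlib
import Pool.Agent.H295R2.LM.RMain
import Pool.Agent.H39R3.MomMain

/-!
Lower bounds for the moments of zeta of every rational order `k > 1` in all intervals
`[T, T + U]`, `U ≥ (log T) ^ B`, with an absolute constant (helper277; variant of the constants of
helper39, files `H39R3/Mom*`).
-/

set_option autoImplicit false

namespace Pool.Agent.H277R3.MomU

open Real Finset Pool.Agent.H306R2 Filter Topology MeasureTheory Pool.Agent.H39R3.Mom

theorem egypt_list' : ∀ a b : ℕ, 0 < a → a < b → ∃ l : List ℕ, (∀ q ∈ l, 2 ≤ q) ∧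
    (l.map (fun q : ℕ => (1 : ℝ) / q)).sum = (a : ℝ) / b ∧
    (l.map (fun q : ℕ => (1 : ℝ) / √(q : ℝ))).sum ≤ 2.42 * √((a : ℝ) / b) := by
  intro a
  induction a using Nat.strong_induction_on with
  | _ a ih =>
    intro b ha hab
    have hb : 0 < b := by omega
    set q : ℕ := (b + a - 1) / a with hq
    have h1 : b ≤ a * q := by
      have h := Nat.lt_mul_div_succ (b + a - 1) ha
      rw [← hq] at h
      have : a * (q + 1) = a * q + a := by ring
      omega
    have h2 : a * q < a + b := by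
      have h := Nat.mul_div_le (b + a - 1) a
      rw [← hq] at h
      omega
    have hq2 : 2 ≤ q := by
      by_contra hcon
      push Not at hcon
      have : a * q ≤ a * 1 := Nat.mul_le_mul_left _ (by omega)
      omega
    have haR : (0 : ℝ) < a := by exact_mod_cast ha
    have hbR : (0 : ℝ) < b := by exact_mod_cast hb
    have hqR : (0 : ℝ) < q := by exact_mod_cast (by omega : 0 < q)
    have h1R : (b : ℝ) ≤ a * q := by exact_mod_cast h1
    have hinv : 1 / √(q : ℝ) ≤ √((a : ℝ) / b) := by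
      rw [one_div, ← Real.sqrt_inv]
      apply Real.sqrt_le_sqrt
      rw [inv_eq_one_div, div_le_div_iff₀ hqR hbR]
      linarith
    have hs0 : 0 ≤ √((a : ℝ) / b) := Real.sqrt_nonneg _
    rcases Nat.eq_zero_or_pos (a * q - b) with h0 | hpos
    · refine ⟨[q], by simpa using hq2, ?_, ?_⟩
      · have : a * q = b := by omega
        have hR : (a : ℝ) * q = b := by exact_mod_cast this
        simp only [List.map_cons, List.map_nil, List.sum_cons, List.sum_nil, add_zero]
        rw [div_eq_div_iff hqR.ne' hbR.ne']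
        linarith
      · simp only [List.map_cons, List.map_nil, List.sum_cons, List.sum_nil, add_zero]
        linarith
    · set a' : ℕ := a * q - b with ha'
      have ha'lt : a' < a := by omega
      have hbq : a' < b * q := by
        have : b * 1 ≤ b * q := Nat.mul_le_mul_left _ (by omega)
        omega
      obtain ⟨l, hl1, hl2, hl3⟩ := ih a' ha'lt (b * q) hpos hbq
      have ha'R : (a' : ℝ) = a * q - b := by
        rw [ha', Nat.cast_sub h1]
        push_cast
        ring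
      refine ⟨q :: l, ?_, ?_, ?_⟩
      · intro x hx
        rcases List.mem_cons.mp hx with rfl | h
        · exact hq2
        · exact hl1 x h
      · rw [List.map_cons, List.sum_cons, hl2, ha'R]
        push_cast
        field_simp
        ring
      · rw [List.map_cons, List.sum_cons]
        -- `t = 1 / q + t'` with `q t' ≤ 1`
        set t' : ℝ := (a' : ℝ) / ((b * q : ℕ) : ℝ) with ht'
        have ht'0 : 0 ≤ t' := by positivity
        have hsum : (a : ℝ) / b = 1 / q + t' := by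
          rw [ht', ha'R]
          push_cast
          field_simp
          ring
        have ht'1 : t' ≤ 1 / q := by
          rw [ht', ha'R]
          push_cast
          rw [div_le_div_iff₀ (by positivity) hqR]
          have h4 : (a : ℝ) * q < a + b := by exact_mod_cast h2
          have h5 : (a : ℝ) < b := by exact_mod_cast hab
          nlinarith
        set x : ℝ := 1 / √(q : ℝ) with hx
        set y : ℝ := √t' with hy
        have hx0 : 0 < x := by positivity
        have hy0 : 0 ≤ y := Real.sqrt_nonneg _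
        have hx2 : x ^ 2 = 1 / q := by
          rw [hx, div_pow, one_pow, Real.sq_sqrt hqR.le]
        have hy2 : y ^ 2 = t' := Real.sq_sqrt ht'0
        have hyx : y ≤ x := by
          have : y ^ 2 ≤ x ^ 2 := by rw [hx2, hy2]; exact ht'1
          exact le_of_sq_le_sq this hx0.le
        have hfin : x + 2.42 * y ≤ 2.42 * √((a : ℝ) / b) := by
          rw [hsum, ← hx2, ← hy2]
          have h8 : (x + 2.42 * y) ^ 2 ≤ (2.42 * √(x ^ 2 + y ^ 2)) ^ 2 := by
            rw [mul_pow, Real.sq_sqrt (by positivity)]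
            nlinarith
          exact le_of_sq_le_sq h8 (by positivity)
        linarith
where
  le_of_sq_le_sq {x y : ℝ} (h : x ^ 2 ≤ y ^ 2) (hy : 0 ≤ y) : x ≤ y :=
    (abs_le_of_sq_le_sq' h hy).2

theorem egypt' (r : ℚ) (h0 : 0 < r) (h1 : r < 1) : ∃ (n : ℕ) (q : Fin n → ℕ), (∀ i, 2 ≤ q i) ∧
    ∑ i, (1 : ℝ) / (q i : ℝ) = (r : ℝ) ∧ ∑ i, (1 : ℝ) / √(q i : ℝ) ≤ 2.42 * √(r : ℝ) := by
  have hn : 0 < r.num := Rat.num_pos.mpr h0
  obtain ⟨a, ha⟩ : ∃ a : ℕ, r.num = a := ⟨r.num.toNat, by omega⟩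
  have ha0 : 0 < a := by omega
  have hr : (r : ℝ) = (a : ℝ) / (r.den : ℝ) := by
    have h := Rat.num_div_den r
    have h2 : (r : ℝ) = ((r.num : ℚ) / (r.den : ℚ) : ℚ) := by rw [h]
    rw [h2, ha]
    push_cast
    rfl
  have hlt : a < r.den := by
    have hd : (0 : ℝ) < r.den := by exact_mod_cast r.den_pos
    have h2 : (r : ℝ) < 1 := by exact_mod_cast h1
    rw [hr, div_lt_one hd] at h2
    exact_mod_cast h2
  obtain ⟨l, hl1, hl2, hl3⟩ := egypt_list' a r.den ha0 hlt
  refine ⟨l.length, fun i => l.get i, fun i => hl1 _ (List.get_mem l i), ?_, ?_⟩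
  · rw [hr, ← hl2, ← Fin.sum_univ_fun_getElem l (fun q : ℕ => (1 : ℝ) / q)]
    rfl
  · rw [hr]
    refine le_trans (le_of_eq ?_) hl3
    rw [← Fin.sum_univ_fun_getElem l (fun q : ℕ => (1 : ℝ) / √(q : ℝ))]
    rfl

/-- the exponent in the constant -/
noncomputable def expo' (κ : ℝ) (j : ℕ) : ℝ :=
  κ ^ 2 * (2 * log 2 - (κ + j) / j * log ((κ + j) / κ)) -
    κ / j * (3.025 * (κ * √(1 - j / κ))) - (κ / j - 1) * log (2 * π * κ ^ 2) / 2 -
    1 / (6 * (j : ℝ) ^ 2)

theorem mB_lower' (κ : ℝ) (j : ℕ) (hj : 1 ≤ j) (hjκ : (j : ℝ) < κ) {n : ℕ} (q : Fin n → ℕ)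
    (hq : ∀ i, 2 ≤ q i) (hsum : ∑ i, (1 : ℝ) / (q i : ℝ) = 1 - j / κ)
    (hsq : ∑ i, (1 : ℝ) / √(q i : ℝ) ≤ 2.42 * √(1 - j / κ)) :
    AdmR κ j q (fun i => κ / (κ + j) / (q i : ℝ)) ∧
    exp (expo' κ j) / Gamma (κ ^ 2 + 1) ≤ mB κ j q (fun i => κ / (κ + j) / (q i : ℝ)) := by
  have hj0 : (0 : ℝ) < j := by exact_mod_cast hj
  have hj1 : (1 : ℝ) ≤ j := by exact_mod_cast hj
  have hκ : 0 < κ := by linarith
  have hκj : 0 < κ + j := by linarith
  have hq0 : ∀ i, (0 : ℝ) < q i := fun i => by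
    have := hq i
    exact_mod_cast (by omega : 0 < q i)
  have hβ0 : ∀ i, 0 < κ / (κ + j) / (q i : ℝ) := fun i => by
    have := hq0 i
    positivity
  have hc1 : κ / (κ + j) ≤ 1 := by
    rw [div_le_one hκj]
    linarith
  have hSb : ∑ i, κ / (κ + j) / (q i : ℝ) = (κ - j) / (κ + j) := by
    have : ∀ i, κ / (κ + j) / (q i : ℝ) = κ / (κ + j) * (1 / (q i : ℝ)) := fun i => by ring
    simp_rw [this]
    rw [← Finset.mul_sum, hsum]
    field_simp
  have hadm : AdmR κ j q (fun i => κ / (κ + j) / (q i : ℝ)) := by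
    refine ⟨hj, hq, by rw [hsum]; ring, hβ0, fun i => ?_, ?_, ?_⟩
    · have := hq0 i
      exact div_le_div_of_nonneg_right hc1 this.le
    · rw [hSb, div_le_one hκj]
      linarith
    · nlinarith
  refine ⟨hadm, ?_⟩
  -- the quantity `S`
  set S : ℝ := ∑ i, κ / (κ + j) / (q i : ℝ) * (κ ^ 2 / q i / (κ ^ 2 / q i + 1)) with hS
  have hSle : S ≤ (κ - j) / (κ + j) := by
    rw [← hSb, hS]
    refine Finset.sum_le_sum fun i _ => ?_
    have h1 := hq0 i
    have h2 : κ ^ 2 / (q i : ℝ) / (κ ^ 2 / q i + 1) ≤ 1 := by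
      rw [div_le_one (by positivity)]
      linarith
    exact mul_le_of_le_one_right (hβ0 i).le h2
  have h1S : 2 * j / (κ + j) ≤ 1 - S := by
    have e : 2 * j / (κ + j) = 1 - (κ - j) / (κ + j) := by
      field_simp
      ring
    rw [e]
    linarith
  have hD : 0 < 1 - S := lt_of_lt_of_le (by positivity) h1S
  rw [X379ConstB.mB_eq κ j q _ hκ hβ0 hD, ← hS]
  have hG1 : 0 < Gamma (κ ^ 2 + 1) := Real.Gamma_pos_of_pos (by positivity)
  rw [div_le_iff₀ hG1]
  have hG2 : Gamma (κ ^ 2 + 1) = exp (log (Gamma (κ ^ 2 + 1))) := (Real.exp_log hG1).symm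
  nth_rewrite 2 [hG2]
  rw [← Real.exp_add]
  apply Real.exp_le_exp.mpr
  -- the sum
  have hT1 : (κ ^ 2 - κ * j) * (1 - log (κ * (κ + j))) - 3.025 * (κ * √(1 - j / κ)) ≤
      ∑ i, (κ ^ 2 / q i * log (κ / (κ + j) / (q i : ℝ)) - log (Gamma (κ ^ 2 / q i + 1))) := by
    have h1 : ∀ i, κ ^ 2 * (1 / (q i : ℝ)) * (1 - log (κ * (κ + j))) -
        1.25 * κ * (1 / √(q i : ℝ)) ≤
        κ ^ 2 / q i * log (κ / (κ + j) / (q i : ℝ)) - log (Gamma (κ ^ 2 / q i + 1)) := by
      intro i
      have h2 := hq0 i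
      have ha : 0 < κ ^ 2 / (q i : ℝ) := by positivity
      have h3 := gamma_sqrt ha
      have h4 : √(κ ^ 2 / (q i : ℝ)) = κ * (1 / √(q i : ℝ)) := by
        rw [Real.sqrt_div (by positivity), Real.sqrt_sq hκ.le]
        ring
      have h5 : log (κ / (κ + j) / (q i : ℝ)) =
          log (κ ^ 2 / (q i : ℝ)) - log (κ * (κ + j)) := by
        rw [← Real.log_div (by positivity) (by positivity)]
        congr 1
        field_simp
      rw [h4] at h3
      rw [h5]
      have h6 : κ ^ 2 * (1 / (q i : ℝ)) = κ ^ 2 / (q i : ℝ) := by ring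
      rw [h6]
      nlinarith
    have h2 := Finset.sum_le_sum (fun i (_ : i ∈ (Finset.univ : Finset (Fin n))) => h1 i)
    refine le_trans ?_ h2
    rw [Finset.sum_sub_distrib, ← Finset.sum_mul, ← Finset.mul_sum, ← Finset.mul_sum, hsum]
    have h3 : κ ^ 2 * (1 - j / κ) = κ ^ 2 - κ * j := by
      field_simp
    rw [h3]
    have h4 : 1.25 * κ * ∑ i, 1 / √(q i : ℝ) ≤ 1.25 * κ * (2.42 * √(1 - j / κ)) :=
      mul_le_mul_of_nonneg_left hsq (by positivity)
    have h5 : 1.25 * κ * (2.42 * √(1 - j / κ)) = 3.025 * (κ * √(1 - j / κ)) := by ring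
    linarith
  have hT2 : 2 * (κ * j) * log (2 * j / (κ + j)) ≤ 2 * (κ * j) * log (1 - S) := by
    apply mul_le_mul_of_nonneg_left _ (by positivity)
    exact Real.log_le_log (by positivity) h1S
  have hT3 := X379StirR.log_gamma_ge (x := κ ^ 2) (by positivity)
  have hT4 := X379StirR.log_gamma_le (x := κ * j) (by positivity)
  -- logarithms
  set L : ℝ := log κ with hL
  set l : ℝ := log (j : ℝ) with hl
  set s : ℝ := log (κ + j) with hs
  have e1 : log (κ * (κ + j)) = L + s := Real.log_mul hκ.ne' hκj.ne'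
  have e2 : log (2 * j / (κ + j)) = log 2 + l - s := by
    rw [Real.log_div (by positivity) hκj.ne', Real.log_mul (by norm_num) hj0.ne']
  have e3 : log (κ ^ 2) = 2 * L := by
    rw [Real.log_pow]
    push_cast
    ring
  have e4 : log (κ * j) = L + l := Real.log_mul hκ.ne' hj0.ne'
  have e5 : log ((κ + j) / κ) = s - L := Real.log_div hκj.ne' hκ.ne'
  have e6 : log (2 * π * (κ * j)) = log (2 * π * κ ^ 2) - (L - l) := by
    have : 2 * π * (κ * j) = (2 * π * κ ^ 2) * (j / κ) := by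
      field_simp
    rw [this, Real.log_mul (by positivity) (by positivity), Real.log_div hj0.ne' hκ.ne']
    ring
  rw [e1] at hT1
  rw [e2] at hT2
  rw [e3] at hT3
  rw [e4, e6] at hT4
  set P : ℝ := log (2 * π * κ ^ 2) with hP
  have hLl : 0 ≤ L - l := by
    have : l ≤ L := Real.log_le_log hj0 hjκ.le
    linarith
  unfold expo'
  rw [e5, ← hP]
  set Q : ℝ := κ * √(1 - j / κ) with hQ
  have hκj' : 0 < κ / j := by positivity
  -- combine
  have hbr : (κ ^ 2 - κ * j) * (1 - (L + s)) - 3.025 * Q + 2 * (κ * j) * (log 2 + l - s) +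
      (κ ^ 2 * (2 * L) - κ ^ 2 + P / 2) -
      2 * (κ * j * (L + l) - κ * j + (P - (L - l)) / 2 + 1 / (12 * (κ * j))) ≤
      (∑ i, (κ ^ 2 / q i * log (κ / (κ + j) / (q i : ℝ)) - log (Gamma (κ ^ 2 / q i + 1))) +
        2 * (κ * j) * log (1 - S) + log (Gamma (κ ^ 2 + 1)) -
        2 * log (Gamma (κ * j + 1))) := by
    linarith
  have hmul := mul_le_mul_of_nonneg_right hbr hκj'.le
  have hfin : κ ^ 2 * (2 * log 2 - (κ + j) / j * (s - L)) - κ / j * (3.025 * Q) -
      (κ / j - 1) * P / 2 - 1 / (6 * (j : ℝ) ^ 2) ≤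
      ((κ ^ 2 - κ * j) * (1 - (L + s)) - 3.025 * Q + 2 * (κ * j) * (log 2 + l - s) +
      (κ ^ 2 * (2 * L) - κ ^ 2 + P / 2) -
      2 * (κ * j * (L + l) - κ * j + (P - (L - l)) / 2 + 1 / (12 * (κ * j)))) * (κ / j) +
      (κ ^ 2 * (2 * L) - κ ^ 2 + P / 2) := by
    have key : ((κ ^ 2 - κ * j) * (1 - (L + s)) - 3.025 * Q + 2 * (κ * j) * (log 2 + l - s) +
      (κ ^ 2 * (2 * L) - κ ^ 2 + P / 2) -
      2 * (κ * j * (L + l) - κ * j + (P - (L - l)) / 2 + 1 / (12 * (κ * j)))) * (κ / j) +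
      (κ ^ 2 * (2 * L) - κ ^ 2 + P / 2) =
      κ ^ 2 * (2 * log 2 - (κ + j) / j * (s - L)) - κ / j * (3.025 * Q) -
      (κ / j - 1) * P / 2 - 1 / (6 * (j : ℝ) ^ 2) + κ / j * (L - l) := by
      field_simp
      ring
    rw [key]
    have : 0 ≤ κ / j * (L - l) := mul_nonneg hκj'.le hLl
    linarith
  linarith

end Pool.Agent.H277R3.MomU
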