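import Pool.Agent.H277R3.MomU

set_option autoImplicit false

namespace Pool.Agent.H277R3.MomU

open Real Finset Pool.Agent.H306R2 Filter Topology MeasureTheory Pool.Agent.H39R3.Mom

theorem log_one_sub_le {v : ℝ} (h0 : 0 ≤ v) (h1 : v < 1) : log (1 - v) ≤ -v - v ^ 2 / 2 := by
  have h := Real.hasSum_pow_div_log_of_abs_lt_one (x := v) (by rw [abs_of_nonneg h0]; exact h1)
  have h2 := sum_le_hasSum (Finset.range 2) (fun i _ => by positivity) h
  simp only [Finset.sum_range_succ, Finset.sum_range_zero] at h2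
  norm_num at h2
  linarith

/-- the main gain term -/
theorem gain {t : ℝ} (h0 : 1 / 2 ≤ t) (h1 : t ≤ 1) :
    (1 + t) * log (1 + t) ≤ t * (2 * log 2) - t * (1 - t) / 4 := by
  set d : ℝ := 1 - t with hd
  have hd0 : 0 ≤ d := by linarith
  have hd1 : d ≤ 1 / 2 := by linarith
  have ht : t = 1 - d := by linarith
  have hlog : log (1 + t) ≤ log 2 - d / 2 - d ^ 2 / 8 := by
    have e : 1 + t = 2 * (1 - d / 2) := by linarith
    rw [e, Real.log_mul (by norm_num) (by linarith)]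
    have := log_one_sub_le (v := d / 2) (by linarith) (by linarith)
    nlinarith
  have hl2 : log 2 ≤ 0.6932 := by
    have := Real.log_two_lt_d9
    linarith
  have h3 : (1 + t) * log (1 + t) ≤ (1 + t) * (log 2 - d / 2 - d ^ 2 / 8) :=
    mul_le_mul_of_nonneg_left hlog (by linarith)
  refine h3.trans ?_
  rw [ht]
  have h4 : (1 - d) * (2 * log 2) - (1 - d) * (1 - (1 - d)) / 4 -
      (1 + (1 - d)) * (log 2 - d / 2 - d ^ 2 / 8) = d * (3 / 4 - log 2 - d ^ 2 / 8) := by ring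
  have h5 : 0 ≤ d * (3 / 4 - log 2 - d ^ 2 / 8) := by
    apply mul_nonneg hd0
    nlinarith
  linarith

theorem log_two_pi_sq' {κ : ℝ} (hκ : 1 ≤ κ) : 0 ≤ log (2 * π * κ ^ 2) ∧
    log (2 * π * κ ^ 2) ≤ κ + 1.24 := by
  have hκ0 : 0 < κ := by linarith
  refine ⟨(log_two_pi_sq hκ).1, ?_⟩
  have k3 : log (2 * π) ≤ 1.85 := by
    rw [Real.log_le_iff_le_exp (by positivity)]
    have h3 := Real.pi_lt_d4
    have h5 := Real.exp_one_gt_d9
    have h6 : exp 1.85 = exp 1 * exp 0.85 := by rw [← Real.exp_add]; norm_num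
    have h7 : (2.3135 : ℝ) ≤ exp 0.85 := by
      have h := Real.sum_le_exp_of_nonneg (x := 0.85) (by norm_num) 4
      simp only [Finset.sum_range_succ, Finset.sum_range_zero, Nat.factorial] at h
      refine le_trans ?_ h
      norm_num
    rw [h6]
    nlinarith
  have k4 : log κ ≤ log 2 + κ / 2 - 1 := by
    have h := Real.log_le_sub_one_of_pos (x := κ / 2) (by positivity)
    rw [Real.log_div hκ0.ne' (by norm_num)] at h
    linarith
  have k5 := Real.log_two_lt_d9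
  rw [Real.log_mul (by positivity) (by positivity), Real.log_pow]
  push_cast
  linarith

theorem expo_all' {κ : ℝ} (hκ : 1 < κ) : ∃ j : ℕ, 1 ≤ j ∧ (j : ℝ) < κ ∧
    -13 ≤ expo' κ j := by
  have hκ0 : 0 < κ := by linarith
  set c : ℕ := ⌈κ⌉₊ with hc
  have hc2 : 2 ≤ c := by
    have : 1 < c := Nat.lt_ceil.mpr (by exact_mod_cast hκ)
    omega
  have hclt : (c : ℝ) < κ + 1 := Nat.ceil_lt_add_one hκ0.le
  have hcle : κ ≤ c := Nat.le_ceil κ
  obtain ⟨j, hj⟩ : ∃ j : ℕ, c = j + 1 := ⟨c - 1, by omega⟩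
  have hjR : (c : ℝ) = j + 1 := by rw [hj]; push_cast; ring
  have hj1 : 1 ≤ j := by omega
  have hj1R : (1 : ℝ) ≤ j := by exact_mod_cast hj1
  have hj0 : (0 : ℝ) < j := by linarith
  have hjκ : (j : ℝ) < κ := by linarith
  have hκj1 : κ ≤ j + 1 := by linarith
  refine ⟨j, hj1, hjκ, ?_⟩
  set y : ℝ := κ * √(1 - j / κ) with hy
  have hy0 : 0 ≤ y := by positivity
  have hy2 : y ^ 2 = κ * (κ - j) := by
    rw [hy, mul_pow, Real.sq_sqrt]
    · field_simp
    · rw [sub_nonneg, div_le_one hκ0]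
      exact hjκ.le
  set x : ℝ := κ - j with hx
  have hx0 : 0 < x := by linarith
  have hx1 : x ≤ 1 := by linarith
  -- first term
  have t1 : y ^ 2 / 4 ≤ κ ^ 2 * (2 * log 2 - (κ + j) / j * log ((κ + j) / κ)) := by
    have ht0 : 0 < (j : ℝ) / κ := by positivity
    have ht1 : (j : ℝ) / κ ≤ 1 := by
      rw [div_le_one hκ0]
      exact hjκ.le
    have ht2 : 1 / 2 ≤ (j : ℝ) / κ := by
      rw [le_div_iff₀ hκ0]
      linarith
    have h := gain ht2 ht1
    have e1 : (κ + j) / κ = 1 + j / κ := by field_simp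
    have e2 : (κ + j) / j = (1 + j / κ) / (j / κ) := by field_simp
    have h3 : (κ + j) / j * log ((κ + j) / κ) ≤ 2 * log 2 - (1 - j / κ) / 4 := by
      rw [e1, e2, div_mul_eq_mul_div, div_le_iff₀ ht0]
      linarith
    have h4 : y ^ 2 / 4 = κ ^ 2 * ((1 - j / κ) / 4) := by
      rw [hy2, hx]
      field_simp
    rw [h4]
    apply mul_le_mul_of_nonneg_left _ (by positivity)
    linarith
  obtain ⟨hP0, hP1⟩ := log_two_pi_sq' hκ.le
  have hdiv : κ / j = 1 + x / j := by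
    rw [hx]
    field_simp
    ring
  set P : ℝ := log (2 * π * κ ^ 2) with hP
  have hxj0 : 0 ≤ x / j := by positivity
  unfold expo'
  rw [← hP, ← hy, hdiv]
  rcases Nat.lt_or_ge j 2 with h2 | h2
  · -- `j = 1`
    have hj' : (j : ℝ) = 1 := by
      have : j = 1 := by omega
      rw [this]
      norm_num
    have hκ2 : κ ≤ 2 := by linarith
    have hyb : y ≤ 1.4143 := by
      have : y ^ 2 ≤ 1.4143 ^ 2 := by
        rw [hy2]
        nlinarith
      exact (abs_le_of_sq_le_sq' this (by norm_num)).2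
    rw [hj', div_one]
    have t2 : (1 + x) * (3.025 * y) ≤ 2 * (3.025 * 1.4143) := by
      apply mul_le_mul (by linarith) (by linarith) (by positivity) (by norm_num)
    have t3 : (1 + x - 1) * P / 2 ≤ 1.62 := by
      have : x * P ≤ 1 * (2 + 1.24) := mul_le_mul hx1 (by linarith) hP0 (by norm_num)
      linarith
    rw [hj'] at t1
    have hy2' : 0 ≤ y ^ 2 / 4 := by positivity
    have e : (1 : ℝ) / (6 * 1 ^ 2) ≤ 0.17 := by norm_num
    linarith
  · have h2R : (2 : ℝ) ≤ j := by exact_mod_cast h2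
    have hxy : x / j * y ≤ 0.8661 := by
      have h3 : (x / j * y) ^ 2 ≤ 0.8661 ^ 2 := by
        rw [mul_pow, hy2, div_pow]
        have h4 : x ^ 2 ≤ 1 := by nlinarith
        have h5 : κ * x ≤ (j + 1) * 1 := mul_le_mul hκj1 hx1 hx0.le (by linarith)
        have h6 : x ^ 2 / (j : ℝ) ^ 2 * (κ * x) ≤ 1 / (j : ℝ) ^ 2 * (j + 1) := by
          apply mul_le_mul _ (by linarith) (by positivity) (by positivity)
          exact div_le_div_of_nonneg_right h4 (by positivity)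
        refine h6.trans ?_
        rw [div_mul_eq_mul_div, div_le_iff₀ (by positivity)]
        nlinarith
      exact (abs_le_of_sq_le_sq' h3 (by norm_num)).2
    have t2 : (1 + x / j) * (3.025 * y) ≤ 3.025 * y + 2.62 := by
      nlinarith
    have t3 : (1 + x / j - 1) * P / 2 ≤ 1.06 := by
      have h3 : x / j ≤ 1 / j := div_le_div_of_nonneg_right hx1 hj0.le
      have h4 : x / j * P ≤ 1 / j * (j + 2.24) := by
        apply mul_le_mul h3 (by linarith) hP0 (by positivity)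
      have h5 : 1 / (j : ℝ) * (j + 2.24) ≤ 2.12 := by
        rw [div_mul_eq_mul_div, div_le_iff₀ hj0]
        linarith
      linarith
    have t4 : 1 / (6 * (j : ℝ) ^ 2) ≤ 0.042 := by
      rw [div_le_iff₀ (by positivity)]
      nlinarith
    nlinarith [sq_nonneg (y / 2 - 3.025)]

/-- the master bound in all intervals `[T, T + U]`, `U ≥ (log T) ^ B`, with unit fractions filled
in -/
theorem master_rat' (r : ℚ) (hr : 1 < r) (j : ℕ) (hj : 1 ≤ j) (hjr : (j : ℚ) < r) (c : ℝ)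
    (hc : c < aF (r : ℝ) * (exp (expo' (r : ℝ) j) / Gamma ((r : ℝ) ^ 2 + 1))) :
    ∃ B : ℝ, 0 < B ∧ ∀ᶠ T : ℝ in atTop, ∀ U : ℝ, log T ^ B ≤ U →
      c * (U * log U ^ ((r : ℝ) ^ 2)) ≤
      ∫ t in T..(T + U), ‖riemannZeta (1 / 2 + t * Complex.I)‖ ^ (2 * (r : ℝ)) := by
  have hr0 : 0 < r := by linarith
  have hj0 : (0 : ℚ) < j := by exact_mod_cast hj
  have h1 : 0 < 1 - (j : ℚ) / r := by
    rw [sub_pos, div_lt_one hr0]
    exact hjr
  have h2 : 1 - (j : ℚ) / r < 1 := by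
    have : 0 < (j : ℚ) / r := by positivity
    linarith
  obtain ⟨n, q, hq, hsum, hsq⟩ := egypt' (1 - (j : ℚ) / r) h1 h2
  have e : (((1 - (j : ℚ) / r : ℚ)) : ℝ) = 1 - (j : ℝ) / (r : ℝ) := by
    push_cast
    ring
  rw [e] at hsum hsq
  have hjR : (j : ℝ) < (r : ℝ) := by exact_mod_cast hjr
  have hrR : (0 : ℝ) < (r : ℝ) := by exact_mod_cast hr0
  obtain ⟨hadm, hmB⟩ := mB_lower' (r : ℝ) j hj hjR q hq hsum hsq
  refine H295LM.masterX (r : ℝ) hrR j q _ hadm c (lt_of_lt_of_le hc ?_)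
  exact mul_le_mul_of_nonneg_left hmB (aF_pos hrR).le

/-- absolute constant -/
theorem all_rat (r : ℚ) (hr : 1 < r) :
    ∃ B : ℝ, 0 < B ∧ ∀ᶠ T : ℝ in atTop, ∀ U : ℝ, log T ^ B ≤ U →
      exp (-14) * aF (r : ℝ) / Gamma ((r : ℝ) ^ 2 + 1) * (U * log U ^ ((r : ℝ) ^ 2)) ≤
      ∫ t in T..(T + U), ‖riemannZeta (1 / 2 + t * Complex.I)‖ ^ (2 * (r : ℝ)) := by
  have hrR : (1 : ℝ) < (r : ℝ) := by exact_mod_cast hr
  obtain ⟨j, hj1, hj2, hj3⟩ := expo_all' hrR
  refine master_rat' r hr j hj1 (by exact_mod_cast hj2) _ ?_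
  have hpos : 0 < aF (r : ℝ) := aF_pos (by linarith)
  have hG : 0 < Gamma ((r : ℝ) ^ 2 + 1) := Real.Gamma_pos_of_pos (by positivity)
  have hlt : exp (-14 : ℝ) < exp (expo' (r : ℝ) j) := Real.exp_lt_exp.mpr (by linarith)
  calc exp (-14) * aF (r : ℝ) / Gamma ((r : ℝ) ^ 2 + 1)
      = aF (r : ℝ) * (exp (-14) / Gamma ((r : ℝ) ^ 2 + 1)) := by ring
    _ < aF (r : ℝ) * (exp (expo' (r : ℝ) j) / Gamma ((r : ℝ) ^ 2 + 1)) := by
        apply mul_lt_mul_of_pos_left _ hpos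
        exact div_lt_div_of_pos_right hlt hG

end Pool.Agent.H277R3.MomU
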